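import Pool.Agent.Helper9_CG.Stmt
import Pool.Agent.Helper76_LAG.Near

/-!
# CG, module BALC: the states are states of LLG with `q = 4`
-/

set_option autoImplicit false

namespace Pool.Agent.CG.H47

open SimpleGraph Pool.Agent.LAG Pool.Agent.LLG Pool.Agent.CG

theorem balc : BalcStmt := by
  intro V _ A R Q k g _ h
  refine ⟨h.le, h.m2, h.m3, h.big, h.deg, ?_, ?_⟩
  · intro x hx y hy hxy
    obtain ⟨i, hi⟩ := Set.mem_iUnion.mp hx
    obtain ⟨j, hj⟩ := Set.mem_iUnion.mp hy
    exact h.sep i j x hi y hj hxy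
  · intro v
    classical
    have h1 : ∀ i, {x | x ∈ Q i ∧ near A 93 x v}.ncard ≤ 1 := by
      intro i
      rw [Set.ncard_le_one (Set.toFinite _)]
      rintro x ⟨hx, hxv⟩ y ⟨hy, hyv⟩
      by_contra hxy
      have h2 : near A 186 x y := near_trans hxv (near_symm hyv)
      by_cases hi : i = 0
      · subst hi
        exact h.s0 x hx y hy hxy h2
      · exact h.s1 i hi x hx y hy hxy (near_mono (by norm_num) h2)
    have h2 : {x | x ∈ (⋃ i, Q i) ∧ near A 93 x v} =
        ⋃ i ∈ (Finset.univ : Finset (Fin 4)), {x | x ∈ Q i ∧ near A 93 x v} := by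
      ext x
      simp only [Set.mem_iUnion, Set.mem_setOf_eq, Finset.mem_univ, exists_prop, true_and]
      constructor
      · rintro ⟨⟨i, hi⟩, h⟩
        exact ⟨i, hi, h⟩
      · rintro ⟨i, hi, h⟩
        exact ⟨⟨i, hi⟩, h⟩
    rw [h2]
    refine le_trans (Finset.set_ncard_biUnion_le _ _) ?_
    refine le_trans (Finset.sum_le_sum fun i _ => h1 i) ?_
    simp

end Pool.Agent.CG.H47
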