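import Pool.Agent.Helper47_CG.VioA

/-!
# CGP, module VIO: the structure of the violators of Hall's condition
-/

set_option autoImplicit false

namespace Pool.Agent.CGP.H47

open SimpleGraph Pool.Agent.LAG Pool.Agent.LLG Pool.Agent.CGP

section claims

variable {V : Type} [Fintype V] [DecidableEq V] {O g : V → V → Prop} {Z A S : Set V}
  {k m m0 D0 : ℕ} {X Y P : Finset (V ⊕ V)}

/-- The numbers of the elements of the two kinds. -/
theorem card_lr (Q : Finset (V ⊕ V)) :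
    {x | Sum.inl x ∈ Q}.ncard + {y | Sum.inr y ∈ Q}.ncard = Q.card := by
  rw [← Finset.card_toLeft_add_card_toRight (u := Q), ← Set.ncard_coe_finset,
    ← Set.ncard_coe_finset]
  congr 1
  · congr 1
    ext x
    simp
  · congr 1
    ext x
    simp

theorem ins_l {Q : Finset (V ⊕ V)} (hD : ∀ v, D0 ≤ {w | g v w}.ncard)
    (h : ∀ x y, Sum.inl x ∈ Q → g x y → Sum.inr y ∈ Q) :
    D0 * {x | Sum.inl x ∈ Q}.ncard ≤ ins (dbl g) (Q : Set (V ⊕ V)) := by
  have h1 := ins_ge (dbl g) (Q : Set (V ⊕ V)) (Q.toLeft.map Function.Embedding.inl) (by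
    intro a ha
    simp only [Finset.mem_map, Finset.mem_toLeft, Function.Embedding.inl_apply] at ha
    obtain ⟨x, hx, rfl⟩ := ha
    exact hx)
  rw [Finset.sum_map] at h1
  refine le_trans ?_ h1
  have h2 : {x | Sum.inl x ∈ Q}.ncard = Q.toLeft.card := by
    rw [← Set.ncard_coe_finset]
    congr 1
    ext x
    simp
  rw [h2, mul_comm]
  have := Finset.card_nsmul_le_sum Q.toLeft (fun x => {b | b ∈ (Q : Set (V ⊕ V)) ∧
    (dbl g).Adj (Function.Embedding.inl x) b}.ncard) D0 (by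
      intro x hx
      exact cnt_l x (hD x) (fun y hy => h x y (by simpa using hx) hy))
  simpa using this

/-- Closed sets of extras are large. -/
theorem claimE (hgO : ∀ x y, g x y → O x y) (hD0 : 1 ≤ D0) (hsg : Sparse (dbl g) D0 m0)
    (hD : ∀ v, D0 ≤ {w | g v w}.ncard)
    (hS : ∀ y, y ∈ S ↔ ∃ x ∈ A, g x y)
    (hP3 : ∀ Y : Set V, (∀ y ∈ Y, ∃ x ∈ A, g x y) →
      Y.ncard ≤ {x | x ∈ A ∧ x ∉ Z ∧ ∃ y ∈ Y, g x y}.ncard)
    (hXl : ∀ x, Sum.inl x ∈ X ↔ x ∈ A) (hXr : ∀ y, Sum.inr y ∈ X ↔ y ∈ S)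
    (hcl : ∀ a ∈ P, ∀ b ∈ X ∪ Y, (dbl O).Adj a b → b ∈ P)
    {Q : Finset (V ⊕ V)} (hQX : Q ⊆ X ∩ P) (hQn : Q.Nonempty)
    (hQ : ∀ a ∈ Q, ∀ b ∈ X ∩ P, (dbl g).Adj a b → b ∈ Q) : m0 ≤ Q.card := by
  have h1 : ∀ x y, Sum.inl x ∈ Q → g x y → Sum.inr y ∈ Q := by
    intro x y hx hxy
    have hxX := Finset.mem_inter.mp (hQX hx)
    have hyX : Sum.inr y ∈ X := by
      rw [hXr, hS]
      exact ⟨x, (hXl x).mp hxX.1, hxy⟩
    have hyP : Sum.inr y ∈ P :=
      hcl _ hxX.2 _ (Finset.mem_union_left _ hyX) (dbl_lr.mpr (hgO _ _ hxy))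
    exact hQ _ hx _ (Finset.mem_inter.mpr ⟨hyX, hyP⟩) (dbl_lr.mpr hxy)
  have h2 := hP3 {y | Sum.inr y ∈ Q} (by
    intro y hy
    rw [← hS, ← hXr]
    exact (Finset.mem_inter.mp (hQX hy)).1)
  have h3 : {x | x ∈ A ∧ x ∉ Z ∧ ∃ y ∈ {y | Sum.inr y ∈ Q}, g x y}.ncard ≤
      {x | Sum.inl x ∈ Q}.ncard := by
    apply Set.ncard_le_ncard _ (Set.toFinite _)
    rintro x ⟨hxA, _, y, hy, hxy⟩
    have hyP := (Finset.mem_inter.mp (hQX hy)).2
    have hxX : Sum.inl x ∈ X := (hXl x).mpr hxA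
    have hxP : Sum.inl x ∈ P :=
      hcl _ hyP _ (Finset.mem_union_left _ hxX) (dbl_rl.mpr (hgO _ _ hxy))
    exact hQ _ hy _ (Finset.mem_inter.mpr ⟨hxX, hxP⟩) (dbl_rl.mpr hxy)
  have h4 := card_lr Q
  have h5 := ins_l hD h1
  by_contra hlt
  push Not at hlt
  have h6 := hsg (Q : Set (V ⊕ V)) (by rw [Set.ncard_coe_finset]; exact hlt)
  rw [Set.ncard_coe_finset] at h6
  have h7 := hQn.card_pos
  have h8 : D0 * Q.card ≤ D0 * (2 * {x | Sum.inl x ∈ Q}.ncard) :=
    Nat.mul_le_mul_left _ (by omega)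
  have h9 : D0 * (2 * {x | Sum.inl x ∈ Q}.ncard) = 2 * (D0 * {x | Sum.inl x ∈ Q}.ncard) := by ring
  have h10 : 0 < D0 * {x | Sum.inl x ∈ Q}.ncard := Nat.mul_pos hD0 (by omega)
  omega

/-- The violator is large. -/
theorem claimD (hD0 : 1 ≤ D0) (hsg : Sparse (dbl g) D0 m0)
    (hD : ∀ v, D0 ≤ {w | g v w}.ncard)
    {Q : Finset (V ⊕ V)} (hcl : ∀ x y, Sum.inl x ∈ Q → g x y → Sum.inr y ∈ Q)
    (hlt : {y | Sum.inr y ∈ Q}.ncard < {x | Sum.inl x ∈ Q ∧ x ∉ Z}.ncard) : m0 ≤ Q.card := by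
  have h3 : {x | Sum.inl x ∈ Q ∧ x ∉ Z}.ncard ≤ {x | Sum.inl x ∈ Q}.ncard := by
    apply Set.ncard_le_ncard _ (Set.toFinite _)
    rintro x ⟨hx, _⟩
    exact hx
  have h4 := card_lr Q
  have h5 := ins_l hD hcl
  by_contra hlt'
  push Not at hlt'
  have h6 := hsg (Q : Set (V ⊕ V)) (by rw [Set.ncard_coe_finset]; exact hlt')
  rw [Set.ncard_coe_finset] at h6
  have h8 : D0 * Q.card ≤ D0 * (2 * {x | Sum.inl x ∈ Q}.ncard) :=
    Nat.mul_le_mul_left _ (by omega)
  have h9 : D0 * (2 * {x | Sum.inl x ∈ Q}.ncard) = 2 * (D0 * {x | Sum.inl x ∈ Q}.ncard) := by ring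
  have h10 : 0 < D0 * {x | Sum.inl x ∈ Q}.ncard := Nat.mul_pos hD0 (by omega)
  omega

/-- Closed sets of holes are large. -/
theorem claimH (hD0 : 2 ≤ D0) (hsg : Sparse (dbl g) D0 m0)
    (hD : ∀ v, D0 ≤ {w | g w v}.ncard)
    (hZ : ∀ y, ∀ x ∈ Z, ∀ x' ∈ Z, g x y → g x' y → x = x')
    (hS : ∀ y, y ∈ S ↔ ∃ x ∈ A, g x y)
    (hP2 : ∀ X : Set V, Disjoint X A → X.Nonempty →
        (X \ Z).ncard < {y | (∃ x ∈ X, g x y) ∧ ¬ ∃ x ∈ A, g x y}.ncard)
    (hXl : ∀ x, Sum.inl x ∈ X ↔ x ∈ A) (hXr : ∀ y, Sum.inr y ∈ X ↔ y ∈ S)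
    {C : Finset (V ⊕ V)} {Q : Finset (V ⊕ V)} (hQX : Q ⊆ C \ X) (hQn : Q.Nonempty)
    (hQ : ∀ a ∈ Q, ∀ b, (dbl g).Adj a b → b ∈ C ∧ (b ∉ X → b ∈ Q)) : m0 ≤ Q.card := by
  classical
  -- tails of the heads in `Q`
  have h1 : ∀ x y, Sum.inr y ∈ Q → g x y → Sum.inl x ∈ Q := by
    intro x y hy hxy
    have hyX := (Finset.mem_sdiff.mp (hQX hy)).2
    apply (hQ _ hy _ (dbl_rl.mpr hxy)).2
    intro hxX
    apply hyX
    rw [hXr, hS]
    exact ⟨x, (hXl x).mp hxX, hxy⟩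
  have hne : {x | Sum.inl x ∈ Q}.Nonempty := by
    obtain ⟨q, hq⟩ := hQn
    rcases q with x | y
    · exact ⟨x, hq⟩
    · have h2 : 0 < {w | g w y}.ncard := by
        have := hD y
        omega
      obtain ⟨x, hx⟩ := (Set.ncard_pos (Set.toFinite _)).mp h2
      exact ⟨x, h1 x y hq hx⟩
  have h2 := hP2 {x | Sum.inl x ∈ Q} (by
    rw [Set.disjoint_left]
    intro x hx hxA
    exact (Finset.mem_sdiff.mp (hQX hx)).2 ((hXl x).mpr hxA)) hne
  have h3 : {y | (∃ x ∈ {x | Sum.inl x ∈ Q}, g x y) ∧ ¬ ∃ x ∈ A, g x y}.ncard ≤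
      {y | Sum.inr y ∈ Q}.ncard := by
    apply Set.ncard_le_ncard _ (Set.toFinite _)
    rintro y ⟨⟨x, hx, hxy⟩, hyA⟩
    apply (hQ _ hx _ (dbl_lr.mpr hxy)).2
    rw [hXr, hS]
    exact hyA
  -- the set without the sinks
  set K : Finset (V ⊕ V) := Q.filter fun v => ∀ x, v = Sum.inl x → x ∉ Z with hK
  have hKl : ∀ x, Sum.inl x ∈ K ↔ Sum.inl x ∈ Q ∧ x ∉ Z := by
    intro x
    rw [hK, Finset.mem_filter]
    constructor
    · rintro ⟨h, h'⟩
      exact ⟨h, h' x rfl⟩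
    · rintro ⟨h, h'⟩
      exact ⟨h, fun x' e => by cases e; exact h'⟩
  have hKr : ∀ y, Sum.inr y ∈ K ↔ Sum.inr y ∈ Q := by
    intro y
    rw [hK, Finset.mem_filter]
    exact ⟨fun h => h.1, fun h => ⟨h, fun x' e => by cases e⟩⟩
  have hKQ : K.card ≤ Q.card := Finset.card_le_card (Finset.filter_subset _ _)
  have hKc := card_lr K
  simp only [hKl, hKr] at hKc
  have h4 : {x | Sum.inl x ∈ Q ∧ x ∉ Z}.ncard = ({x | Sum.inl x ∈ Q} \ Z).ncard := rfl
  rw [h4] at hKc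
  refine le_trans ?_ hKQ
  by_contra hlt
  push Not at hlt
  have h6 := hsg (K : Set (V ⊕ V)) (by rw [Set.ncard_coe_finset]; exact hlt)
  rw [Set.ncard_coe_finset] at h6
  have h5 : (D0 - 1) * {y | Sum.inr y ∈ Q}.ncard ≤ ins (dbl g) (K : Set (V ⊕ V)) := by
    have e1 := ins_ge (dbl g) (K : Set (V ⊕ V)) (Q.toRight.map Function.Embedding.inr) (by
      intro a ha
      simp only [Finset.mem_map, Finset.mem_toRight, Function.Embedding.inr_apply] at ha
      obtain ⟨y, hy, rfl⟩ := ha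
      exact (hKr y).mpr hy)
    rw [Finset.sum_map] at e1
    refine le_trans ?_ e1
    have e2 : {x | Sum.inr x ∈ Q}.ncard = Q.toRight.card := by
      rw [← Set.ncard_coe_finset]
      congr 1
      ext x
      simp
    rw [e2, mul_comm]
    have := Finset.card_nsmul_le_sum Q.toRight (fun x => {b | b ∈ (K : Set (V ⊕ V)) ∧
      (dbl g).Adj (Function.Embedding.inr x) b}.ncard) (D0 - 1) (by
        intro y hy
        have e3 := cnt_r (K := (K : Set (V ⊕ V))) (Z := Z) y (hD y) (hZ y) (fun x hx hxZ =>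
          (hKl x).mpr ⟨h1 x y (by simpa using hy) hx, hxZ⟩)
        have e4 : (Function.Embedding.inr y : V ⊕ V) = Sum.inr y := rfl
        rw [e4]
        omega)
    simpa using this
  obtain ⟨D1, rfl⟩ : ∃ D1, D0 = D1 + 2 := ⟨D0 - 2, by omega⟩
  have e1 : D1 + 2 - 1 = D1 + 1 := rfl
  rw [e1] at h5
  set y := {y | Sum.inr y ∈ Q}.ncard
  have h7 : K.card + 1 ≤ 2 * y := by omega
  have h8 : (D1 + 2) * (K.card + 1) ≤ (D1 + 2) * (2 * y) := Nat.mul_le_mul_left _ h7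
  nlinarith

end claims

theorem vio (hFOR : ForStmt) (hLNK : LnkStmt) (hCORM : CormStmt) (hMAXD : MaxdStmt) :
    VioStmt := by
  intro V _ _ O g Z k m m0 D0 hgO hdO hk hD0 hm hmm0 hsO hsg hdg hZ A0 hA0 hlt
  classical
  obtain ⟨A, hA, hP2, hP3⟩ := hMAXD V g Z A0 hA0 hlt
  set S : Set V := {y | ∃ x ∈ A, g x y} with hSd
  have hS : ∀ y, y ∈ S ↔ ∃ x ∈ A, g x y := fun y => Iff.rfl
  have hdeg := dbl_deg (O := O) hdO
  set X : Finset (V ⊕ V) := Finset.univ.filter fun v => v ∈ Sum.inl '' A ∪ Sum.inr '' S with hXd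
  have hXl : ∀ x, Sum.inl x ∈ X ↔ x ∈ A := by
    intro x
    simp [hXd]
  have hXr : ∀ y, Sum.inr y ∈ X ↔ y ∈ S := by
    intro y
    simp [hXd]
  obtain ⟨Y, _, hY⟩ := hCORM (V ⊕ V) (dbl O) k X hdeg
  -- the component
  let p : V ⊕ V → Prop := fun v => v ∈ Sum.inr '' S
  let q : V ⊕ V → Prop := fun v => v ∈ Sum.inl '' (A \ Z)
  have hp : ∀ P : Finset (V ⊕ V), (P.filter p).card = {y | Sum.inr y ∈ X ∩ P}.ncard := by
    intro P
    rw [← Set.ncard_coe_finset, ← Set.ncard_image_of_injective _ (Sum.inr_injective :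
      Function.Injective (Sum.inr : V → V ⊕ V))]
    congr 1
    ext v
    simp only [Finset.coe_filter, Set.mem_setOf_eq, Set.mem_image, Finset.mem_inter, p]
    constructor
    · rintro ⟨h1, y, hy, rfl⟩
      exact ⟨y, ⟨(hXr y).mpr hy, h1⟩, rfl⟩
    · rintro ⟨y, ⟨h1, h2⟩, rfl⟩
      exact ⟨h2, y, (hXr y).mp h1, rfl⟩
  have hq : ∀ P : Finset (V ⊕ V), (P.filter q).card =
      {x | Sum.inl x ∈ X ∩ P ∧ x ∉ Z}.ncard := by
    intro P
    rw [← Set.ncard_coe_finset, ← Set.ncard_image_of_injective _ (Sum.inl_injective :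
      Function.Injective (Sum.inl : V → V ⊕ V))]
    congr 1
    ext v
    simp only [Finset.coe_filter, Set.mem_setOf_eq, Set.mem_image, Finset.mem_inter, q]
    constructor
    · rintro ⟨h1, x, hx, rfl⟩
      exact ⟨x, ⟨⟨(hXl x).mpr hx.1, h1⟩, hx.2⟩, rfl⟩
    · rintro ⟨x, ⟨⟨h1, h2⟩, h3⟩, rfl⟩
      exact ⟨h2, x, ⟨(hXl x).mp h1, h3⟩, rfl⟩
  obtain ⟨P, hPU, hcl, hcon, hlt2⟩ := exists_comp (dbl O) (X ∪ Y) p q (by
    rw [hp, hq]
    have e1 : {y | Sum.inr y ∈ X ∩ (X ∪ Y)} = S := by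
      ext y
      simp only [Set.mem_setOf_eq, Finset.mem_inter, Finset.mem_union, hXr]
      tauto
    have e2 : {x | Sum.inl x ∈ X ∩ (X ∪ Y) ∧ x ∉ Z} = A \ Z := by
      ext x
      simp only [Set.mem_setOf_eq, Finset.mem_inter, Finset.mem_union, hXl, Set.mem_diff]
      tauto
    rw [e1, e2]
    exact hA)
  rw [hp, hq] at hlt2
  obtain ⟨hcore, hbd⟩ := hY P hcl hPU
  -- the sets
  set C : Finset (V ⊕ V) := Y ∩ P with hCd
  set E : Finset (V ⊕ V) := (X ∩ P) \ Y with hEd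
  set H : Finset (V ⊕ V) := (Y ∩ P) \ X with hHd
  have hCE : C ∪ E = P := by
    ext v
    simp only [hCd, hEd, Finset.mem_union, Finset.mem_inter, Finset.mem_sdiff]
    constructor
    · rintro (h | h)
      · exact h.2
      · exact h.1.2
    · intro h
      have := Finset.mem_union.mp (hPU h)
      tauto
  have hDis : Disjoint C E := by
    rw [Finset.disjoint_left]
    intro v h1 h2
    simp only [hCd, hEd, Finset.mem_inter, Finset.mem_sdiff] at h1 h2
    exact h2.2 h1.1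
  have hXP : (C ∪ E) \ H = X ∩ P := by
    rw [hCE]
    ext v
    simp only [hHd, Finset.mem_inter, Finset.mem_sdiff]
    constructor
    · rintro ⟨h1, h2⟩
      have := Finset.mem_union.mp (hPU h1)
      tauto
    · rintro ⟨h1, h2⟩
      exact ⟨h2, fun h => h.2 h1⟩
  have hgle : dbl g ≤ dbl O := dbl_mono hgO
  -- the links of the extras
  obtain ⟨FE, RE, _, _, hcE, hlE, _, hqE⟩ := hFOR (V ⊕ V) (dbl g) E (X ∩ P ∩ Y) m (by
    rw [Finset.disjoint_left]
    intro v h1 h2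
    simp only [hEd, Finset.mem_inter, Finset.mem_sdiff] at h1 h2
    exact h1.2 h2.2) (by
    intro Q hQE hQn hQ
    refine hmm0.trans (claimE hgO (by omega) hsg (fun v => (hdg v).1) hS hP3 hXl hXr hcl
      (hQE.trans Finset.sdiff_subset) hQn ?_)
    intro a ha b hb hab
    by_cases hbY : b ∈ Y
    · exact absurd (Finset.mem_inter.mpr ⟨hb, hbY⟩) (hQ a ha b hab).2
    · exact (hQ a ha b hab).1 (Finset.mem_sdiff.mpr ⟨hb, hbY⟩))
  -- the links of the components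
  have hG1 : lnk (dbl O) (C : Set (V ⊕ V)) (FE : Set (Sym2 (V ⊕ V))) ≤ dbl O := by
    rintro a b ⟨_, h | h⟩
    · exact h.2.2
    · exact hgle ((mem_edgeSet _).mp (hlE _ h).1)
  obtain ⟨L0, hmL, hlL, hrL⟩ := hLNK (V ⊕ V) (dbl O)
    (lnk (dbl O) (C : Set (V ⊕ V)) (FE : Set (Sym2 (V ⊕ V)))) P m hG1 hcon (by
    intro Q hQP hQn hQ
    by_cases hne : (Q ∩ C).Nonempty
    · refine le_trans ?_ (Finset.card_le_card (Finset.inter_subset_left (s₂ := C)))
      refine big_of_core hk hdeg hsO (C := C) (fun w hw => hcore.1 w hw) hne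
        Finset.inter_subset_right ?_
      intro w hw v hv hwv
      have hw' := Finset.mem_inter.mp hw
      refine Finset.mem_inter.mpr ⟨?_, hv⟩
      refine hQ w hw'.1 v (Finset.mem_inter.mp hv).2 ⟨hwv.ne, Or.inl ⟨hw'.2, hv, hwv⟩⟩
    · have hQE : Q ⊆ E := by
        intro v hv
        have h1 : v ∈ C ∪ E := by
          rw [hCE]
          exact hQP hv
        rcases Finset.mem_union.mp h1 with h | h
        · exact absurd ⟨v, Finset.mem_inter.mpr ⟨hv, h⟩⟩ hne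
        · exact h
      refine hqE Q hQE hQn ?_
      rintro a ha b ⟨hab, h | h⟩
      · exact absurd h.1 (Set.notMem_empty _)
      · have h2 := (hlE _ h).2.2 b (Sym2.mem_mk_right a b)
        have hbP : b ∈ P := by
          rcases Finset.mem_union.mp h2 with h3 | h3
          · exact (Finset.mem_inter.mp (Finset.mem_sdiff.mp h3).1).2
          · exact (Finset.mem_inter.mp (Finset.mem_inter.mp h3).1).2
        exact hQ a ha b hbP ⟨hab, Or.inr h⟩)
  -- the links of the holes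
  obtain ⟨FH, R, hRH, hmR, hcH, hlH, hrH, _⟩ := hFOR (V ⊕ V) (dbl g) H (Finset.univ \ C) m (by
    rw [Finset.disjoint_left]
    intro v h1 h2
    exact (Finset.mem_sdiff.mp h2).2 (Finset.mem_sdiff.mp h1).1) (by
    intro Q hQH hQn hQ
    refine hmm0.trans (claimH hD0 hsg (fun v => (hdg v).2) hZ hS hP2 hXl hXr (C := C) hQH
      hQn ?_)
    intro a ha b hab
    have h1 := hQ a ha b hab
    have hbC : b ∈ C := by
      by_contra hb
      exact h1.2 (Finset.mem_sdiff.mpr ⟨Finset.mem_univ _, hb⟩)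
    exact ⟨hbC, fun hbX => h1.1 (Finset.mem_sdiff.mpr ⟨hbC, hbX⟩)⟩)
  have hclD : ∀ x y, Sum.inl x ∈ X ∩ P → g x y → Sum.inr y ∈ X ∩ P := by
    intro x y hx hxy
    have hx' := Finset.mem_inter.mp hx
    have hyX : Sum.inr y ∈ X := by
      rw [hXr, hS]
      exact ⟨x, (hXl x).mp hx'.1, hxy⟩
    exact Finset.mem_inter.mpr ⟨hyX,
      hcl _ hx'.2 _ (Finset.mem_union_left _ hyX) (dbl_lr.mpr (hgO _ _ hxy))⟩
  have hdD : VC.D ((C, E, H, FE ∪ L0, FE, FH, R) : VC (V ⊕ V)) = X ∩ P := hXP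
  refine ⟨(C, E, H, FE ∪ L0, FE, FH, R), ?_, ?_, ?_, ?_⟩
  · refine ⟨⟨hDis, hcore, ?_, ?_⟩, Finset.subset_union_left,
      ⟨Finset.sdiff_subset, hRH, ?_, ?_⟩, ?_, hmR, ?_, ?_, ?_, ?_, ?_⟩
    · intro l hl
      rcases Finset.mem_union.mp hl with h | h
      · have h1 := hlE l h
        refine ⟨edgeSet_mono hgle h1.1, ?_, h1.2.1⟩
        intro w hw
        rcases Finset.mem_union.mp (h1.2.2 w hw) with h3 | h3
        · exact Finset.mem_union_right _ h3
        · rw [Finset.mem_inter, Finset.mem_inter] at h3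
          exact Finset.mem_union_left _ (Finset.mem_inter.mpr ⟨h3.2, h3.1.2⟩)
      · have h1 := hlL l h
        refine ⟨h1.1, ?_, ?_⟩
        · intro w hw
          change w ∈ C ∪ E
          rw [hCE]
          exact h1.2.1 w hw
        · by_contra hcon2
          push Not at hcon2
          have hall : ∀ w ∈ l, w ∈ C := by
            intro w hw
            have h2 : w ∈ C ∪ E := by
              rw [hCE]
              exact h1.2.1 w hw
            rcases Finset.mem_union.mp h2 with h3 | h3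
            · exact h3
            · exact absurd h3 (hcon2 w hw)
          apply h1.2.2
          induction l using Sym2.ind with
          | _ a b =>
            rw [mem_edgeSet] at h1 ⊢
            exact ⟨h1.1.ne, Or.inl ⟨hall a (Sym2.mem_mk_left a b), hall b (Sym2.mem_mk_right a b),
              h1.1⟩⟩
    · intro v hv w hw
      change v ∈ C ∪ E at hv
      change w ∈ C ∪ E at hw
      rw [hCE] at hv hw
      refine (hrL v hv w hw).mono ?_
      rintro a b ⟨hab, h | h⟩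
      · rcases h.2.2.2 with h4 | h4
        · exact ⟨hab, Or.inl h4⟩
        · exact ⟨hab, Or.inr (Finset.mem_coe.mpr (Finset.mem_union_left _ h4))⟩
      · exact ⟨hab, Or.inr (Finset.mem_coe.mpr (Finset.mem_union_right _ h))⟩
    · intro l hl
      have h1 := hlH l hl
      refine ⟨edgeSet_mono hgle h1.1, h1.2.1, ?_⟩
      intro w hw
      rcases Finset.mem_union.mp (h1.2.2 w hw) with h3 | h3
      · exact Or.inl h3
      · exact Or.inr (Finset.mem_sdiff.mp h3).2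
    · intro w hw
      obtain ⟨w', hw', hr⟩ := hrH w hw
      refine ⟨w', ?_, hr.mono ?_⟩
      · rcases hw' with h | h
        · exact Or.inl h
        · exact Or.inr (Finset.mem_sdiff.mp h).2
      · rintro a b ⟨hab, h | h⟩
        · exact absurd h.1 (Set.notMem_empty _)
        · exact ⟨hab, Or.inr h⟩
    · change m * (FE ∪ L0).card ≤ m * FE.card + (C ∪ E).card
      rw [hCE]
      have h1 := Finset.card_union_le FE L0
      have h2 := Nat.mul_le_mul_left m h1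
      rw [mul_add] at h2
      omega
    · change FE.card ≤ E.card
      omega
    · change FH.card ≤ H.card
      omega
    · rw [hdD]
      change k * (E.card + H.card) ≤ _
      rw [mul_add]
      omega
    · rw [hdD]
      change bd (dbl O) (C : Set (V ⊕ V)) ≤ _
      omega
    · rw [hdD]
      exact hmm0.trans (claimD (by omega) hsg (fun v => (hdg v).1) hclD hlt2)
  · intro l hl
    rcases Finset.mem_union.mp hl with h | h
    · exact (hlE l h).1
    · exact (hlH l h).1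
  · rw [hdD]
    exact hclD
  · rw [hdD]
    exact hlt2

end Pool.Agent.CGP.H47
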