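import Pool.Agent.Helper42_CG.Stmt

/-!
# CGP, module VIO, part A: elementary lemmas
-/

set_option autoImplicit false

namespace Pool.Agent.CGP.H47

open SimpleGraph Pool.Agent.LAG Pool.Agent.LLG Pool.Agent.CGP

/-- A lower bound for the number of the adjacent pairs. -/
theorem ins_ge {W : Type} [Fintype W] (Γ : SimpleGraph W) (K : Set W)
    (T : Finset W) (hT : ∀ a ∈ T, a ∈ K) :
    ∑ a ∈ T, {b | b ∈ K ∧ Γ.Adj a b}.ncard ≤ ins Γ K := by
  classical
  have h1 : ∀ a, {b | b ∈ K ∧ Γ.Adj a b}.ncard =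
      ((Finset.univ.filter fun b => b ∈ K ∧ Γ.Adj a b).image (Prod.mk a)).card := by
    intro a
    rw [Finset.card_image_of_injective _ (Prod.mk_right_injective a), ← Set.ncard_coe_finset]
    congr 1
    ext b
    simp
  simp only [h1]
  rw [← Finset.card_biUnion]
  · unfold ins
    rw [← Set.ncard_coe_finset]
    apply Set.ncard_le_ncard _ (Set.toFinite _)
    intro e he
    simp only [Finset.coe_biUnion, Set.mem_iUnion, Finset.coe_image, Set.mem_image,
      Finset.coe_filter, Finset.mem_univ, true_and, exists_prop] at he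
    obtain ⟨a, ha, b, ⟨hb, hab⟩, rfl⟩ := he
    exact ⟨hT a ha, hb, hab⟩
  · intro a _ a' _ hne
    rw [Function.onFun, Finset.disjoint_left]
    intro e h h'
    simp only [Finset.mem_image] at h h'
    obtain ⟨b, _, rfl⟩ := h
    obtain ⟨b', _, h2⟩ := h'
    exact hne (congrArg Prod.fst h2).symm

/-- A set which is closed in a set of large inner degree is large. -/
theorem big_of_core {W : Type} [Fintype W] {Γ : SimpleGraph W} {k m : ℕ} (hk : 1 ≤ k)
    (hdeg : ∀ v, (Γ.neighborSet v).ncard = k) (hsp : Sparse Γ k m) {C K : Finset W}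
    (hC : ∀ w ∈ C, 5 * {v | Γ.Adj w v ∧ v ∉ C}.ncard ≤ 3 * k) (hK : K.Nonempty) (hKC : K ⊆ C)
    (hcl : ∀ w ∈ K, ∀ v ∈ C, Γ.Adj w v → v ∈ K) : m ≤ K.card := by
  by_contra hlt
  push Not at hlt
  have h1 := hsp (K : Set W) (by rw [Set.ncard_coe_finset]; exact hlt)
  rw [Set.ncard_coe_finset] at h1
  have h2 := ins_ge Γ (K : Set W) K (fun a ha => ha)
  have h3 : ∀ w ∈ K, 2 * k ≤ 5 * {b | b ∈ (K : Set W) ∧ Γ.Adj w b}.ncard := by
    intro w hw
    have e1 : Γ.neighborSet w ⊆ {b | b ∈ (K : Set W) ∧ Γ.Adj w b} ∪ {v | Γ.Adj w v ∧ v ∉ C} := by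
      intro v hv
      rw [mem_neighborSet] at hv
      by_cases hvC : v ∈ C
      · exact Or.inl ⟨hcl w hw v hvC hv, hv⟩
      · exact Or.inr ⟨hv, hvC⟩
    have e2 := (Set.ncard_le_ncard e1 (Set.toFinite _)).trans (Set.ncard_union_le _ _)
    rw [hdeg] at e2
    have e3 := hC w (hKC hw)
    omega
  have h4 : 2 * k * K.card ≤ 5 * ins Γ (K : Set W) := by
    refine le_trans ?_ (Nat.mul_le_mul_left 5 h2)
    rw [Finset.mul_sum]
    have := Finset.card_nsmul_le_sum K (fun w => 5 * {b | b ∈ (K : Set W) ∧ Γ.Adj w b}.ncard)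
      (2 * k) h3
    rw [smul_eq_mul, mul_comm] at this
    exact this
  have h5 : 0 < K.card := hK.card_pos
  have h6 : 0 < k * K.card := Nat.mul_pos hk h5
  have h7 : 2 * k * K.card = 2 * (k * K.card) := by ring
  omega

/-- A minimal closed set is connected. -/
theorem exists_comp {W : Type} [Fintype W] [DecidableEq W] (Γ : SimpleGraph W) (U : Finset W)
    (p q : W → Prop) [DecidablePred p] [DecidablePred q]
    (h : (U.filter p).card < (U.filter q).card) :
    ∃ P ⊆ U, (∀ a ∈ P, ∀ b ∈ U, Γ.Adj a b → b ∈ P) ∧ (Γ.induce (P : Set W)).Connected ∧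
      (P.filter p).card < (P.filter q).card := by
  classical
  have hne : (U.powerset.filter fun P => (∀ a ∈ P, ∀ b ∈ U, Γ.Adj a b → b ∈ P) ∧
      (P.filter p).card < (P.filter q).card).Nonempty := by
    refine ⟨U, ?_⟩
    simp only [Finset.mem_filter, Finset.mem_powerset]
    exact ⟨subset_rfl, fun a _ b hb _ => hb, h⟩
  obtain ⟨P, hP, hmin⟩ := Finset.exists_min_image _ Finset.card hne
  simp only [Finset.mem_filter, Finset.mem_powerset] at hP hmin
  obtain ⟨hPU, hcl, hlt⟩ := hP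
  have hPn : P.Nonempty := by
    rw [Finset.nonempty_iff_ne_empty]
    rintro rfl
    simp at hlt
  refine ⟨P, hPU, hcl, ?_, hlt⟩
  rw [connected_iff]
  refine ⟨?_, hPn.coe_sort⟩
  intro u v
  by_contra huv
  let r : W → Prop := fun w => ∃ hw : w ∈ (P : Set W), (Γ.induce (P : Set W)).Reachable u ⟨w, hw⟩
  have hsplit : ∀ s : W → Prop, ∀ _ : DecidablePred s, (P.filter s).card =
      ((P.filter r).filter s).card + ((P.filter fun w => ¬ r w).filter s).card := by
    intro s _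
    rw [Finset.filter_comm, Finset.filter_comm (p := fun w => ¬ r w)]
    exact (Finset.card_filter_add_card_filter_not r).symm
  have hp := hsplit p inferInstance
  have hq := hsplit q inferInstance
  have hur : (u : W) ∈ P.filter r := by
    simp only [Finset.mem_filter]
    exact ⟨u.2, u.2, Reachable.refl _⟩
  have hvr : (v : W) ∈ P.filter fun w => ¬ r w := by
    simp only [Finset.mem_filter]
    exact ⟨v.2, fun ⟨_, h'⟩ => huv h'⟩
  have hcard : P.card = (P.filter r).card + (P.filter fun w => ¬ r w).card :=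
    (Finset.card_filter_add_card_filter_not r).symm
  have hu0 := Finset.card_pos.mpr ⟨_, hur⟩
  have hv0 := Finset.card_pos.mpr ⟨_, hvr⟩
  have hstep : ∀ a ∈ P, ∀ b ∈ P, Γ.Adj a b → r a → r b := by
    rintro a ha b hb hab ⟨_, hr⟩
    refine ⟨hb, hr.trans ?_⟩
    apply Adj.reachable
    exact hab
  by_cases h1 : ((P.filter r).filter p).card < ((P.filter r).filter q).card
  · have := hmin (P.filter r) ⟨(Finset.filter_subset _ _).trans hPU, ?_, h1⟩
    · omega
    · intro a ha b hb hab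
      simp only [Finset.mem_filter] at ha ⊢
      have hbP := hcl a ha.1 b hb hab
      exact ⟨hbP, hstep a ha.1 b hbP hab ha.2⟩
  · have := hmin (P.filter fun w => ¬ r w) ⟨(Finset.filter_subset _ _).trans hPU, ?_, by omega⟩
    · omega
    · intro a ha b hb hab
      simp only [Finset.mem_filter] at ha ⊢
      have hbP := hcl a ha.1 b hb hab
      exact ⟨hbP, fun hr => ha.2 (hstep b hbP a ha.1 hab.symm hr)⟩

section dbl

variable {V : Type} {O g : V → V → Prop} {x y : V}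

theorem dbl_lr : (dbl O).Adj (Sum.inl x) (Sum.inr y) ↔ O x y := by
  constructor
  · rintro (⟨a, b, h1, h2, h3⟩ | ⟨a, b, h1, h2, h3⟩)
    · cases h1
      cases h2
      exact h3
    · cases h1
  · intro h
    exact Or.inl ⟨x, y, rfl, rfl, h⟩

theorem dbl_rl : (dbl O).Adj (Sum.inr y) (Sum.inl x) ↔ O x y := by
  rw [SimpleGraph.adj_comm]
  exact dbl_lr

theorem dbl_ll : ¬ (dbl O).Adj (Sum.inl x) (Sum.inl y) := by
  rintro (⟨a, b, h1, h2, h3⟩ | ⟨a, b, h1, h2, h3⟩)
  · cases h2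
  · cases h1

theorem dbl_rr : ¬ (dbl O).Adj (Sum.inr x) (Sum.inr y) := by
  rintro (⟨a, b, h1, h2, h3⟩ | ⟨a, b, h1, h2, h3⟩)
  · cases h1
  · cases h2

theorem dbl_mono (h : ∀ x y, g x y → O x y) : dbl g ≤ dbl O := by
  rintro a b (⟨x, y, h1, h2, h3⟩ | ⟨x, y, h1, h2, h3⟩)
  · exact Or.inl ⟨x, y, h1, h2, h _ _ h3⟩
  · exact Or.inr ⟨x, y, h1, h2, h _ _ h3⟩

theorem dbl_nbl (x : V) : (dbl O).neighborSet (Sum.inl x) = Sum.inr '' {w | O x w} := by
  ext v
  rw [mem_neighborSet]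
  rcases v with v | v
  · constructor
    · intro h
      exact absurd h dbl_ll
    · rintro ⟨_, _, h⟩
      cases h
  · rw [dbl_lr]
    constructor
    · intro h
      exact ⟨v, h, rfl⟩
    · rintro ⟨w, hw, h⟩
      cases h
      exact hw

theorem dbl_nbr (y : V) : (dbl O).neighborSet (Sum.inr y) = Sum.inl '' {w | O w y} := by
  ext v
  rw [mem_neighborSet]
  rcases v with v | v
  · rw [dbl_rl]
    constructor
    · intro h
      exact ⟨v, h, rfl⟩
    · rintro ⟨w, hw, h⟩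
      cases h
      exact hw
  · constructor
    · intro h
      exact absurd h dbl_rr
    · rintro ⟨_, _, h⟩
      cases h

theorem dbl_deg {k : ℕ} (h : ∀ v, {w | O v w}.ncard = k ∧ {w | O w v}.ncard = k) (v : V ⊕ V) :
    ((dbl O).neighborSet v).ncard = k := by
  rcases v with v | v
  · rw [dbl_nbl, Set.ncard_image_of_injective _ Sum.inr_injective]
    exact (h v).1
  · rw [dbl_nbr, Set.ncard_image_of_injective _ Sum.inl_injective]
    exact (h v).2

/-- All heads of `x` are in `K`. -/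
theorem cnt_l [Fintype V] {D0 : ℕ} {K : Set (V ⊕ V)} (x : V) (h : D0 ≤ {w | g x w}.ncard)
    (hK : ∀ y, g x y → Sum.inr y ∈ K) : D0 ≤ {b | b ∈ K ∧ (dbl g).Adj (Sum.inl x) b}.ncard := by
  refine h.trans ?_
  rw [← Set.ncard_image_of_injective _ (Sum.inr_injective : Function.Injective
    (Sum.inr : V → V ⊕ V))]
  apply Set.ncard_le_ncard _ (Set.toFinite _)
  rintro _ ⟨y, hy, rfl⟩
  exact ⟨hK y hy, dbl_lr.mpr hy⟩

/-- All tails of `y` outside of `Z` are in `K`. -/
theorem cnt_r [Fintype V] {D0 : ℕ} {K : Set (V ⊕ V)} {Z : Set V} (y : V)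
    (h : D0 ≤ {w | g w y}.ncard) (hZ : ∀ x ∈ Z, ∀ x' ∈ Z, g x y → g x' y → x = x')
    (hK : ∀ x, g x y → x ∉ Z → Sum.inl x ∈ K) :
    D0 ≤ {b | b ∈ K ∧ (dbl g).Adj (Sum.inr y) b}.ncard + 1 := by
  have h1 : {w | g w y} ⊆ {w | g w y ∧ w ∉ Z} ∪ {w | g w y ∧ w ∈ Z} := by
    intro w hw
    by_cases hwZ : w ∈ Z
    · exact Or.inr ⟨hw, hwZ⟩
    · exact Or.inl ⟨hw, hwZ⟩
  have h2 := (Set.ncard_le_ncard h1 (Set.toFinite _)).trans (Set.ncard_union_le _ _)
  have h3 : {w | g w y ∧ w ∈ Z}.ncard ≤ 1 := by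
    rw [Set.ncard_le_one (Set.toFinite _)]
    rintro a ⟨ha, haZ⟩ b ⟨hb, hbZ⟩
    exact hZ a haZ b hbZ ha hb
  have h4 : {w | g w y ∧ w ∉ Z}.ncard ≤ {b | b ∈ K ∧ (dbl g).Adj (Sum.inr y) b}.ncard := by
    rw [← Set.ncard_image_of_injective _ (Sum.inl_injective : Function.Injective
      (Sum.inl : V → V ⊕ V))]
    apply Set.ncard_le_ncard _ (Set.toFinite _)
    rintro _ ⟨x, ⟨hx, hxZ⟩, rfl⟩
    exact ⟨hK x hx hxZ, dbl_rl.mpr hx⟩
  omega

end dbl

end Pool.Agent.CGP.H47
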